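import Pool.Agent.U981.CY.TAIL
import Pool.Agent.U29.CY.Main

set_option autoImplicit false

/-! # Exceptional sets of perturbed generalized Collatz maps: stopping times -/

namespace Pool.Agent.U762.EX

open Finset MeasureTheory Filter Pool.Agent.U762.RP Pool.Agent.U29.CY Pool.Agent.U981.CY

/-- no descent of `x` within `c log (2+|x|)` steps -/
def Stay (d : ℕ) (m r : ℤ → ℤ) (c : ℝ) (x : ℤ) (ω : ℤ → ℤ) : Prop :=
  ∀ i : ℕ, (i : ℝ) ≤ c * Real.log (2 + |(x : ℝ)|) → |(x : ℝ)| ≤ |(((stp d m r ω)^[i] x : ℤ) : ℝ)|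

/-- a repetition of an orbit which stays above `|x|` within `c log` steps contradicts LEN -/
theorem det {f : ℤ → ℤ} {c S₀ : ℝ} (hc : 0 < c)
    (hlen : ∀ x : ℤ, x ∈ Function.periodicPts f → (∀ i : ℕ, |x| ≤ |f^[i] x|) → S₀ ≤ |(x : ℝ)| →
      c * Real.log (2 + |(x : ℝ)|) + 1 ≤ (Function.minimalPeriod f x : ℝ)) {x : ℤ} (hx : S₀ ≤ |(x : ℝ)|)
    (hs : ∀ i : ℕ, (i : ℝ) ≤ c * Real.log (2 + |(x : ℝ)|) → |(x : ℝ)| ≤ |((f^[i] x : ℤ) : ℝ)|)
    {i j : ℕ} (hij : i < j) (hj : (j : ℝ) ≤ c * Real.log (2 + |(x : ℝ)|)) : f^[i] x ≠ f^[j] x := by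
  intro he
  obtain ⟨y₀, hy₀⟩ : ∃ y₀, y₀ = f^[i] x := ⟨_, rfl⟩
  rw [← hy₀] at he
  have hp : Function.IsPeriodicPt f (j - i) y₀ := by
    show f^[j - i] y₀ = y₀
    have h1 : f^[j - i] (f^[i] x) = f^[j] x := by
      rw [← Function.iterate_add_apply, Nat.sub_add_cancel hij.le]
    rw [← hy₀] at h1
    rw [h1, ← he]
  have hpos : 0 < j - i := Nat.sub_pos_of_lt hij
  obtain ⟨i₀, hi₀⟩ := exists_min f y₀
  obtain ⟨y, hy⟩ : ∃ y, y = f^[i₀] y₀ := ⟨_, rfl⟩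
  have hyp : Function.IsPeriodicPt f (j - i) y := by
    rw [hy]
    exact hp.apply_iterate i₀
  have hmin : ∀ k : ℕ, |y| ≤ |f^[k] y| := by
    intro k
    rw [hy, ← Function.iterate_add_apply]
    exact hi₀ _
  have hyx : |(x : ℝ)| ≤ |(y : ℝ)| := by
    have h1 : y = f^[i₀ % (j - i)] y₀ := by
      rw [hy]
      exact (hp.iterate_mod_apply i₀).symm
    have h2 : i₀ % (j - i) < j - i := Nat.mod_lt _ hpos
    rw [h1, hy₀, ← Function.iterate_add_apply]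
    refine hs _ (le_trans ?_ hj)
    have : i₀ % (j - i) + i ≤ j := by omega
    exact_mod_cast this
  have h3 := hlen y ⟨j - i, hpos, hyp⟩ hmin (hx.trans hyx)
  have h4 : (Function.minimalPeriod f y : ℝ) ≤ ((j - i : ℕ) : ℝ) := by
    exact_mod_cast hyp.minimalPeriod_le hpos
  have h5 : ((j - i : ℕ) : ℝ) ≤ (j : ℝ) := by exact_mod_cast Nat.sub_le _ _
  have h6 : c * Real.log (2 + |(x : ℝ)|) ≤ c * Real.log (2 + |(y : ℝ)|) := by
    apply mul_le_mul_of_nonneg_left _ hc.le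
    apply Real.log_le_log
    · linarith [abs_nonneg (x : ℝ)]
    · linarith
  linarith

theorem tail (hL : S_LEN) (hS : Pool.Agent.U29.CY.S_SUM) (hB : S_BDD) (d : ℕ) (m r : ℤ → ℤ) (hR : Rel d m r)
    (B : ℕ) (μ : Measure ℤ) [IsProbabilityMeasure μ] (hμ : μ {u : ℤ | (B : ℤ) < |u|} = 0) (M C lam : ℝ)
    (hM : 1 ≤ M) (hC : 0 < C) (hl0 : 0 < lam) (hl1 : lam < 1)
    (hLong : ∀ (L : ℕ) (x : ℤ), (Measure.infinitePi fun _ : ℤ => μ) {ω | Long d m r M L x ω} ≤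
        ENNReal.ofReal (C * lam ^ L * (1 + |(x : ℝ)|))) (A : ℝ) (hA : 0 < A) :
    ∃ c C' : ℝ, 0 < c ∧ ∀ N : ℝ, 1 ≤ N →
      (Measure.infinitePi fun _ : ℤ => μ) {ω | ∃ x : ℤ, N ≤ |(x : ℝ)| ∧ Stay d m r c x ω} ≤
        ENNReal.ofReal (C' * N ^ (-A)) := by
  have hlog : Real.log lam < 0 := Real.log_neg hl0 hl1
  have hA' : 0 < (A + 4) / (-Real.log lam) := div_pos (by linarith) (by linarith)
  obtain ⟨S₀, hS₀, hlen⟩ := hL d m r hR B _ hA'
  obtain ⟨C₁, hC₁, hsum⟩ := hS A hA.le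
  set N₀ : ℝ := max S₀ M with hN₀
  have hN₀1 : 1 ≤ N₀ := hS₀.trans (le_max_left _ _)
  refine ⟨(A + 4) / (-Real.log lam), max (C * lam⁻¹ * C₁) (N₀ ^ A), hA', fun N hN => ?_⟩
  have hN0 : 0 < N := by linarith
  rcases lt_or_ge N N₀ with hlt | hge
  · refine le_trans prob_le_one ?_
    rw [← ENNReal.ofReal_one]
    apply ENNReal.ofReal_le_ofReal
    have h1 : (1 : ℝ) = N ^ A * N ^ (-A) := by
      rw [← Real.rpow_add hN0, add_neg_cancel, Real.rpow_zero]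
    rw [h1]
    apply mul_le_mul_of_nonneg_right _ (Real.rpow_nonneg hN0.le _)
    exact (Real.rpow_le_rpow hN0.le hlt.le hA.le).trans (le_max_right _ _)
  · have hNS : S₀ ≤ N := (le_max_left _ _).trans hge
    have hNM : M ≤ N := (le_max_right _ _).trans hge
    set P : Measure (ℤ → ℤ) := Measure.infinitePi fun _ : ℤ => μ with hP
    set Lx : ℤ → ℕ := fun x => ⌊((A + 4) / (-Real.log lam)) * Real.log (2 + |(x : ℝ)|)⌋₊ with hLx
    have hfl : ∀ (x : ℤ) (i : ℕ), i ≤ Lx x →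
        (i : ℝ) ≤ ((A + 4) / (-Real.log lam)) * Real.log (2 + |(x : ℝ)|) := by
      intro x i hi
      refine le_trans (Nat.cast_le.2 hi) (Nat.floor_le ?_)
      apply mul_nonneg hA'.le
      apply Real.log_nonneg
      linarith [abs_nonneg (x : ℝ)]
    classical
    set U : ℤ → Set (ℤ → ℤ) := fun x =>
      if N ≤ |(x : ℝ)| then {ω | Long d m r M (Lx x) x ω} else ∅ with hU
    have h1 : P {ω | ∃ x : ℤ, N ≤ |(x : ℝ)| ∧ Stay d m r ((A + 4) / (-Real.log lam)) x ω} ≤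
        P (⋃ x, U x) := by
      apply measure_mono_ae
      filter_upwards [hB B μ hμ] with ω hω hev
      obtain ⟨x, hxN, hxs⟩ := hev
      refine Set.mem_iUnion.2 ⟨x, ?_⟩
      rw [hU]
      simp only
      rw [if_pos hxN]
      refine ⟨fun i hi => ?_, fun i j hij hj => ?_⟩
      · exact (hNM.trans hxN).trans (hxs i (hfl x i hi))
      · exact det hA' (hlen ω hω) (hNS.trans hxN) hxs hij (hfl x j hj)
    have h2 : ∀ x, P (U x) ≤ ENNReal.ofReal (C * lam⁻¹) *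
        (if N ≤ |(x : ℝ)| then ENNReal.ofReal ((2 + |(x : ℝ)|) ^ (-(A + 2))) else 0) := by
      intro x
      rw [hU]
      simp only
      split_ifs with h3
      · refine (hLong _ x).trans ?_
        rw [← ENNReal.ofReal_mul (by positivity)]
        apply ENNReal.ofReal_le_ofReal
        have hy : (2 : ℝ) ≤ 2 + |(x : ℝ)| := by linarith [abs_nonneg (x : ℝ)]
        have h4 := decay lam A (2 + |(x : ℝ)|) hl0 hl1 hA hy
        calc C * lam ^ Lx x * (1 + |(x : ℝ)|) ≤ C * lam ^ Lx x * (2 + |(x : ℝ)|) := by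
              apply mul_le_mul_of_nonneg_left _ (by positivity)
              linarith
          _ = C * (lam ^ Lx x * (2 + |(x : ℝ)|)) := by ring
          _ ≤ C * (lam⁻¹ * (2 + |(x : ℝ)|) ^ (-(A + 2))) := mul_le_mul_of_nonneg_left h4 hC.le
          _ = C * lam⁻¹ * (2 + |(x : ℝ)|) ^ (-(A + 2)) := by ring
      · simp
    calc _ ≤ P (⋃ x, U x) := h1
      _ ≤ ∑' x, P (U x) := measure_iUnion_le _
      _ ≤ ∑' x : ℤ, ENNReal.ofReal (C * lam⁻¹) *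
        (if N ≤ |(x : ℝ)| then ENNReal.ofReal ((2 + |(x : ℝ)|) ^ (-(A + 2))) else 0) :=
          ENNReal.tsum_le_tsum h2
      _ = ENNReal.ofReal (C * lam⁻¹) * ∑' x : ℤ,
        (if N ≤ |(x : ℝ)| then ENNReal.ofReal ((2 + |(x : ℝ)|) ^ (-(A + 2))) else 0) :=
          ENNReal.tsum_mul_left
      _ ≤ ENNReal.ofReal (C * lam⁻¹) * ENNReal.ofReal (C₁ * N ^ (-A)) :=
          mul_le_mul' le_rfl (hsum N hN)
      _ = ENNReal.ofReal (C * lam⁻¹ * C₁ * N ^ (-A)) := by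
          rw [← ENNReal.ofReal_mul (by positivity)]
          congr 1
          ring
      _ ≤ _ := by
          apply ENNReal.ofReal_le_ofReal
          exact mul_le_mul_of_nonneg_right (le_max_left _ _) (Real.rpow_nonneg hN0.le _)

/-- the theorem for relatively prime maps -/
theorem stops (d : ℕ) (m r : ℤ → ℤ) (hR : Rel d m r) (hp : (∏ j ∈ range d, m (j : ℤ)) < (d : ℤ) ^ d)
    (ε : ℝ) (h0 : 0 < ε) (h1 : ε < 1) : ∃ K : ℕ, ∀ (B : ℕ) (μ : Measure ℤ) [IsProbabilityMeasure μ],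
      Law d ε K B μ → ∀ A : ℝ, 0 < A → ∃ c C : ℝ, 0 < c ∧ ∀ N : ℝ, 1 ≤ N →
        (Measure.infinitePi fun _ : ℤ => μ) {ω | ∃ x : ℤ, N ≤ |(x : ℝ)| ∧ Stay d m r c x ω} ≤
          ENNReal.ofReal (C * N ^ (-A)) := by
  obtain ⟨K, hK⟩ := ana d m r hR hp ε h0 h1
  refine ⟨K, fun B μ hμ hlaw A hA => ?_⟩
  obtain ⟨M, C, lam, hM, hC, hlam, hlam1, hbd⟩ :=
    Pool.Agent.U458.CY.t_LNG Pool.Agent.U511.RP.t_PRB d m r ε K hK B μ hlaw
  exact tail (Pool.Agent.U803.CY.t_LEN Pool.Agent.U97.CY.t_RAT Pool.Agent.U605.CY.t_PER)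
    Pool.Agent.U60.CY.t_SUM Pool.Agent.U60.CY.t_BDD d m r hR B μ hlaw.bdd M C lam hM hC hlam hlam1 hbd A hA

/-- almost surely all but finitely many integers descend within `c log (2+|x|)` steps -/
theorem stops_ae (d : ℕ) (m r : ℤ → ℤ) (μ : Measure ℤ) [IsProbabilityMeasure μ] (c C : ℝ)
    (h : ∀ N : ℝ, 1 ≤ N →
        (Measure.infinitePi fun _ : ℤ => μ) {ω | ∃ x : ℤ, N ≤ |(x : ℝ)| ∧ Stay d m r c x ω} ≤
          ENNReal.ofReal (C * N ^ (-(1 : ℝ)))) :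
    ∀ᵐ ω ∂(Measure.infinitePi fun _ : ℤ => μ), {x : ℤ | Stay d m r c x ω}.Finite := by
  have hnull := null_of_tail (Measure.infinitePi fun _ : ℤ => μ)
    (fun N => {ω | ∃ x : ℤ, N ≤ |(x : ℝ)| ∧ Stay d m r c x ω}) C h
  have hae : ∀ᵐ ω ∂(Measure.infinitePi fun _ : ℤ => μ), ¬ ∀ N : ℕ,
      ∃ x : ℤ, (N : ℝ) + 1 ≤ |(x : ℝ)| ∧ Stay d m r c x ω := by
    rw [ae_iff]
    simp only [not_not]
    exact hnull
  filter_upwards [hae] with ω h3
  push Not at h3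
  obtain ⟨N, hN⟩ := h3
  refine (Set.finite_Icc (-((N : ℤ) + 1)) ((N : ℤ) + 1)).subset fun x hx => ?_
  have h4 : |(x : ℝ)| < (N : ℝ) + 1 := by
    by_contra hc
    exact hN x (not_lt.1 hc) hx
  have h5 : |x| < (N : ℤ) + 1 := by exact_mod_cast h4
  rw [Set.mem_Icc]
  have := abs_lt.1 h5
  omega

end Pool.Agent.U762.EX
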